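import Pool.Agent.FAC.Alpha

/-!
# The alpha invariant of smooth Fano varieties with hypersurface Cox ring

For a smooth Fano variety `X` whose Cox ring is a hypersurface `ℂ[T_1, …, T_r] / (g)`, of any
dimension and any Picard number, the alpha invariant is at most `1`.
-/

open scoped ENNReal
open MvPolynomial

namespace Pool.Agent.Results.MP_ae084c_ag.HypersurfaceCox

open Pool.Agent.FAC

theorem result {ρ r : ℕ} (w : Fin r → (Fin ρ → ℤ)) (μ : Fin ρ → ℤ)
    (g : MvPolynomial (Fin r) ℂ) [(Ideal.span {g}).IsPrime]
    (hX : IsFanoHypersurface w μ g) : alpha w (anticanonical w μ) g ≤ 1 :=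
  (main hX).2

end Pool.Agent.Results.MP_ae084c_ag.HypersurfaceCox
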