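import Pool.Agent.FAI.Main

/-!
# The alpha invariant of a smooth Fano variety, its dimension and its index

For a smooth Fano variety `X` of dimension `n` with `-K_X ∼ r H`, given through its section
ring, the alpha invariant is at most `(2 ⌊(n + 1 - r) / 4⌋ + 1) / r`. In particular it is at
most `1` if `n ≤ 3 r - 2`, or if `r` is odd and `n ≤ 3 r`.
-/

open scoped ENNReal

namespace Pool.Agent.Results.MP_ae084c_ag.LargeIndex

open Pool.Agent.FAI

theorem result {R : Type*} [CommRing R] [IsDomain R] [Algebra ℂ R]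
    (A : ℕ → Submodule ℂ R) [GradedAlgebra A] (n r : ℕ) (hn : 1 ≤ n) (hr : 1 ≤ r)
    (hX : IsFanoCone A n r) :
    alpha A r ≤ ((2 * ((n + 1 - r) / 4) + 1 : ℕ) : ℝ≥0∞) / r :=
  main_bound hn hr hX

end Pool.Agent.Results.MP_ae084c_ag.LargeIndex
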