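import Pool.Agent.CIC.Main

/-!
# The alpha invariant of smooth Fano varieties with complete intersection Cox ring

`X` is a smooth Fano variety with complete intersection Cox ring, of any codimension `c`, any
dimension and any Picard number `ρ`, and `L, y` is an extremal ray of `X` (with a point `y` of the
base of its fibres). If `κ = -K_X` is in the cone of `y` and the variables of degree one on the ray,
or if few of the equations of positive degree on the ray are active at `y`, then
`α(X) ≤ min (a + 1, ρ - 1) / ℓ`, where `ℓ = L(κ)` is the length of the ray and `a` is the number of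
active equations. If fewer than `ℓ` equations have positive degree on the ray, then `α(X) ≤ 1`.
-/

open scoped ENNReal
open MvPolynomial

namespace Pool.Agent.Results.MP_ae084c_ag.LongRay

open Pool.Agent.CIC

theorem result {ρ r c : ℕ} (w : Fin r → (Fin ρ → ℤ)) (μ : Fin c → (Fin ρ → ℤ))
    (g : Fin c → MvPolynomial (Fin r) ℂ) [(relations g).IsPrime]
    (hX : IsFanoCompleteIntersection w μ g) (L : (Fin ρ → ℤ) →+ ℤ) (y : Fin r → ℂ)
    (hW : IsRay w μ g L y)
    (h : InCone w ({i | y i ≠ 0} ∪ degreeOne w L) (anticanonical w μ) ∨
      ((activeEqs w μ g L y).card : ℤ) + linearRank w g L y <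
        fibreDegree w μ L + (positive μ L).card ∨
      (positive μ L).card < L (anticanonical w μ)) :
    0 < L (anticanonical w μ) ∧ alpha w (anticanonical w μ) g ≤
      (min ((activeEqs w μ g L y).card + 1) (rankBound ρ y) : ℕ) /
        ((L (anticanonical w μ)).toNat : ℝ≥0∞) :=
  main hX hW h

end Pool.Agent.Results.MP_ae084c_ag.LongRay
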