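import Pool.Agent.CID.Reduce3

/-!
# The alpha invariant of smooth Fano varieties of Picard number two

`X` is a smooth Fano variety of Picard number two whose Cox ring is a complete intersection
`ℂ[T_1, …, T_r] / (g_1, …, g_c)` of any codimension `c`. Then `α(X) ≤ 1`.
-/

open scoped ENNReal
open MvPolynomial

namespace Pool.Agent.Results.MP_ae084c_ag.PicardTwo

open Pool.Agent.CIC Pool.Agent.CID

theorem result {r c : ℕ} (w : Fin r → (Fin 2 → ℤ)) (μ : Fin c → (Fin 2 → ℤ))
    (g : Fin c → MvPolynomial (Fin r) ℂ) [(relations g).IsPrime]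
    (hX : IsFanoCompleteIntersection w μ g) :
    alpha w (anticanonical w μ) g ≤ 1 :=
  alpha_le_one_main hX

end Pool.Agent.Results.MP_ae084c_ag.PicardTwo
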